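import Pool.Agent.H73.CBE.Stmts

set_option autoImplicit false

namespace Pool.CBE

theorem ubd_eq {n : ℕ} (f : E n → E n) (d : ℕ) (z : E n) :
    u f d z = 2 * (Real.log ‖f z‖ - d * Real.log ‖z‖) := by
  unfold u
  rw [Real.log_pow, Real.log_pow]
  push_cast
  ring

theorem UBD_thm : UBDStmt := by
  intro n f d η C θ a h
  have hη := h.hη
  have hC0 : 0 < C := lt_of_lt_of_le hη h.hC
  have hpos : ∀ z : E n, z ≠ 0 → 0 < ‖f z‖ := by
    intro z hz
    have hz0 : 0 < ‖z‖ := norm_pos_iff.2 hz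
    exact lt_of_lt_of_le (mul_pos hη (pow_pos hz0 d)) (h.lo z)
  refine ⟨⟨2 * |Real.log η| + 2 * |Real.log C| + 1, by positivity, fun z hz => ?_⟩, ?_⟩
  · have hz0 : 0 < ‖z‖ := norm_pos_iff.2 hz
    have hzd : 0 < ‖z‖ ^ d := pow_pos hz0 d
    have h1 := Real.log_le_log (mul_pos hη hzd) (h.lo z)
    have h2 := Real.log_le_log (hpos z hz) (h.up z)
    rw [Real.log_mul hη.ne' hzd.ne', Real.log_pow] at h1
    rw [Real.log_mul hC0.ne' hzd.ne', Real.log_pow] at h2
    rw [ubd_eq, abs_le]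
    have a1 := neg_abs_le (Real.log η)
    have a2 := le_abs_self (Real.log C)
    have a3 := abs_nonneg (Real.log η)
    have a4 := abs_nonneg (Real.log C)
    constructor <;> linarith
  · intro c z hc
    by_cases hz : z = 0
    · rw [hz, smul_zero]
    · have hz0 : 0 < ‖z‖ := norm_pos_iff.2 hz
      have hc0 : 0 < ‖c‖ := norm_pos_iff.2 hc
      rw [ubd_eq, ubd_eq, h.hom, norm_smul, norm_smul, norm_pow,
        Real.log_mul (pow_pos hc0 d).ne' (hpos z hz).ne', Real.log_mul hc0.ne' hz0.ne',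
        Real.log_pow]
      ring

end Pool.CBE
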